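import Mathlib
import Pool.Agent.N580.Power
import Pool.Agent.N726.BG.Fin

/-!
# Powers of groups with central chains (helper151)
-/

namespace Pool.Agent.Run7.h151.GB

open Pool.Agent.N580
open scoped commutatorElement

section P1

variable {P : Type} [Group P] (κ : Type)

/-- the power of a subgroup -/
def pw (L : Subgroup P) : Subgroup (κ → P) := Subgroup.pi Set.univ fun _ => L

variable {κ}

theorem mem_pw {L : Subgroup P} {f : κ → P} : f ∈ pw κ L ↔ ∀ i, f i ∈ L := by
  simp [pw, Subgroup.mem_pi]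

theorem pw_mono {L M : Subgroup P} (h : L ≤ M) : pw κ L ≤ pw κ M := fun _ hf =>
  mem_pw.2 fun i => h (mem_pw.1 hf i)

theorem pw_bot : pw κ (⊥ : Subgroup P) = ⊥ := by
  ext f
  rw [mem_pw, Subgroup.mem_bot]
  constructor
  · intro h
    funext i
    exact Subgroup.mem_bot.1 (h i)
  · rintro rfl i
    exact Subgroup.mem_bot.2 rfl

theorem pw_top : pw κ (⊤ : Subgroup P) = ⊤ := by
  ext f
  simp [mem_pw]

theorem pw_normal {L : Subgroup P} (h : L.Normal) : (pw κ L).Normal :=
  ⟨fun f hf g => mem_pw.2 fun i => h.conj_mem _ (mem_pw.1 hf i) (g i)⟩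

theorem pw_comm {L M N : Subgroup P} (h : ⁅L, M⁆ ≤ N) : ⁅pw κ L, pw κ M⁆ ≤ pw κ N := by
  rw [Subgroup.commutator_le]
  intro f hf g hg
  refine mem_pw.2 fun i => ?_
  have := (Subgroup.commutator_le.1 h) (f i) (mem_pw.1 hf i) (g i) (mem_pw.1 hg i)
  simpa [commutatorElement_def] using this

theorem pw_dat {p : ℕ} {M Z : Subgroup P} {c : ℕ} (h : Dat p M Z c) :
    Dat p (pw κ M) (pw κ Z) c := by
  obtain ⟨L, h0, h1, h2, h3, h4⟩ := h
  refine ⟨fun i => pw κ (L i), by simp only [h0], by simp only [h1], by simp only [h2, pw_bot],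
    fun i => pw_normal (h3 i), fun i hi => ?_⟩
  obtain ⟨a, b, d⟩ := h4 i hi
  refine ⟨pw_mono a, pw_comm b, fun f hf => mem_pw.2 fun j => ?_⟩
  exact d _ (mem_pw.1 hf j)

theorem card_pw [Fintype κ] [Finite P] (L : Subgroup P) :
    Nat.card (pw κ L) = Nat.card L ^ Fintype.card κ := by
  have e : (pw κ L) ≃ (κ → L) :=
    { toFun := fun f i => ⟨f.1 i, mem_pw.1 f.2 i⟩
      invFun := fun g => ⟨fun i => (g i : P), mem_pw.2 fun i => (g i).2⟩
      left_inv := fun f => rfl
      right_inv := fun g => rfl }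
  rw [Nat.card_congr e, Nat.card_fun, Nat.card_eq_fintype_card (α := κ)]

end P1

end Pool.Agent.Run7.h151.GB
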