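import Mathlib
import Pool.Agent.Run7.h151.GB.Pow

/-!
# Isotropic spaces from central chains (helper151)
-/

namespace Pool.Agent.Run7.h151.GB

open Pool.Agent.N580 Pool.Agent.N726.BG Module

section G1

variable (K : Type) [Field K] (Q : Type) [Group Q] [Fintype Q]

/-- the group algebra as a space of functions -/
noncomputable def ev : MonoidAlgebra K Q ≃ₗ[K] (Q → K) :=
  (MonoidAlgebra.coeffLinearEquiv K (S := K) (M := Q)).trans (Finsupp.linearEquivFunOnFinite K K Q)

variable {K Q}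

theorem ev_gr [DecidableEq Q] (a h : Q) : ev K Q (gr K a) h = if h = a then 1 else 0 := by
  simp only [ev, LinearEquiv.trans_apply, Finsupp.linearEquivFunOnFinite_apply]
  change (MonoidAlgebra.coeff (MonoidAlgebra.of K Q a)) h = _
  rw [MonoidAlgebra.of_apply, MonoidAlgebra.coeff_single, Finsupp.single_apply]
  simp only [eq_comm]

theorem repr_eq (x : MonoidAlgebra K Q) : x = ∑ a : Q, ev K Q x a • gr K a := by
  classical
  apply (ev K Q).injective
  funext h
  rw [map_sum, Finset.sum_apply]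
  simp only [map_smul, Pi.smul_apply, ev_gr, smul_eq_mul, mul_ite, mul_one, mul_zero]
  rw [Finset.sum_ite_eq Finset.univ h]
  simp

theorem ev_shift (x : MonoidAlgebra K Q) (g : Q) :
    ev K Q (x * gr K g⁻¹) = fun h => ev K Q x (h * g) := by
  classical
  have h1 : x * gr K g⁻¹ = ∑ a : Q, ev K Q x a • gr K (a * g⁻¹) := by
    conv_lhs => rw [repr_eq x, Finset.sum_mul]
    refine Finset.sum_congr rfl fun a _ => ?_
    rw [smul_mul_assoc, ← gr_mul]
  rw [h1]
  funext h
  rw [map_sum, Finset.sum_apply]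
  simp only [map_smul, Pi.smul_apply, ev_gr, smul_eq_mul, mul_ite, mul_one, mul_zero]
  rw [Finset.sum_eq_single (h * g)]
  · simp
  · intro b _ hb
    rw [if_neg]
    intro he
    apply hb
    rw [he]
    group
  · intro hh; exact absurd (Finset.mem_univ _) hh

theorem ev_tri (x y z : MonoidAlgebra K Q) :
    ∑ g : Q, ∑ h : Q, ev K Q x g * ev K Q y h * ev K Q z (g * h)⁻¹ = TT K Q x y z := by
  classical
  have e1 : ∀ g h c : Q, TT K Q (gr K g) (gr K h) (gr K c) = if c = (g * h)⁻¹ then 1 else 0 := by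
    intro g h c
    rw [TT_apply, ← gr_mul, ← gr_mul, tau_gr]
    refine if_congr ?_ rfl rfl
    rw [mul_eq_one_iff_eq_inv, eq_comm, inv_eq_iff_eq_inv]
  have hx : TT K Q x y z = ∑ g : Q, ev K Q x g * TT K Q (gr K g) y z := by
    conv_lhs => rw [repr_eq x]
    rw [map_sum, LinearMap.sum_apply, LinearMap.sum_apply]
    refine Finset.sum_congr rfl fun g _ => ?_
    rw [map_smul, LinearMap.smul_apply, LinearMap.smul_apply, smul_eq_mul]
  have hy : ∀ g : Q, TT K Q (gr K g) y z = ∑ h : Q, ev K Q y h * TT K Q (gr K g) (gr K h) z := by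
    intro g
    conv_lhs => rw [repr_eq y]
    rw [map_sum, LinearMap.sum_apply]
    refine Finset.sum_congr rfl fun h _ => ?_
    rw [map_smul, LinearMap.smul_apply, smul_eq_mul]
  have hz : ∀ g h : Q, TT K Q (gr K g) (gr K h) z = ev K Q z (g * h)⁻¹ := by
    intro g h
    conv_lhs => rw [repr_eq z]
    rw [map_sum, Finset.sum_eq_single (g * h)⁻¹]
    · rw [map_smul, e1, if_pos rfl, smul_eq_mul, mul_one]
    · intro b _ hb
      rw [map_smul, e1, if_neg hb, smul_zero]
    · intro hh; exact absurd (Finset.mem_univ _) hh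
  rw [hx]
  refine Finset.sum_congr rfl fun g _ => ?_
  rw [hy, Finset.mul_sum]
  refine Finset.sum_congr rfl fun h _ => ?_
  rw [hz]
  ring

theorem exists_iso {M : Subgroup Q} (hM : M.Normal) {k : ℕ} (hk : aug K M ^ (3 * k) = ⊥) :
    ∃ J : Submodule K (Q → K), Iso J ∧ (Fintype.card Q : ℝ) - finrank K J =
      finrank K (MonoidAlgebra K Q ⧸ JJ K M k) := by
  have : FiniteDimensional K (MonoidAlgebra K Q) := fd
  refine ⟨(JJ K M k).map (ev K Q).toLinearMap, ⟨?_, ?_⟩, ?_⟩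
  · rintro _ ⟨x, hx, rfl⟩ g
    refine ⟨x * gr K g⁻¹, ?_, ev_shift x g⟩
    have h1 : x * gr K g⁻¹ ∈ JJ K M k * ⊤ := Submodule.mul_mem_mul hx Submodule.mem_top
    have h2 : JJ K M k * ⊤ ≤ JJ K M k := by
      have := JJ_mul (K := K) hM k 0
      rwa [JJ_zero, add_zero] at this
    exact h2 h1
  · rintro _ ⟨x, hx, rfl⟩ _ ⟨y, hy, rfl⟩ _ ⟨z, hz, rfl⟩
    have := ev_tri x y z
    rw [TT_vanish hM hk x hx y hy z hz] at this
    exact this
  · have h1 : finrank K ((JJ K M k).map (ev K Q).toLinearMap) = finrank K (JJ K M k) :=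
      LinearEquiv.finrank_map_eq (ev K Q) (JJ K M k)
    have h2 := Submodule.finrank_quotient_add_finrank (JJ K M k)
    have h3 : finrank K (MonoidAlgebra K Q) = Fintype.card Q := by
      rw [(ev K Q).finrank_eq, Module.finrank_fintype_fun_eq_card]
    rw [h1]
    rw [h3] at h2
    have h4 : ((finrank K (MonoidAlgebra K Q ⧸ JJ K M k) : ℕ) : ℝ) + finrank K (JJ K M k) =
        Fintype.card Q := by exact_mod_cast h2
    linarith

end G1

section G2

variable {P : Type} [Group P] [Fintype P]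

/-- the saving -/
theorem good_of_dat {p : ℕ} [Fact p.Prime] {M Z : Subgroup P} {c : ℕ} (hc : 1 ≤ c)
    (hdat : Dat p M Z c) {d t : ℕ} (hd : Nat.card M = p ^ d * Nat.card Z)
    (ht : Nat.card Z = p ^ t) (N : ℕ) (hN : 1 ≤ N) :
    Good (Fin 3 × Fin N → P)
      (Real.exp (-(d : ℝ) / 18 + 2 / 9 * (p : ℝ) ^ c * t + 2 / 9) ^ (3 * N)) := by
  classical
  have hp : p.Prime := Fact.out
  have hp2 : (2 : ℝ) ≤ p := by exact_mod_cast hp.two_le
  set κ := Fin 3 × Fin N with hκ
  have hcκ : Fintype.card κ = 3 * N := by simp [hκ]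
  have hMn : M.Normal := by
    obtain ⟨L, h0, -, -, h3, -⟩ := hdat
    rw [← h0]
    exact h3 0
  have hM' := pw_normal (κ := κ) hMn
  have hdat' := pw_dat (κ := κ) hdat
  have hd' : Nat.card (pw κ M) = p ^ (3 * N * d) * Nat.card (pw κ Z) := by
    rw [card_pw, card_pw, hd, mul_pow, ← pow_mul, hcκ, mul_comm d]
  have ht' : Nat.card (pw κ Z) = p ^ (3 * N * t) := by
    rw [card_pw, ht, ← pow_mul, hcκ, mul_comm t]
  set k := (p - 1) * N * (d + p ^ c * t) + 1 with hk
  have hbot : aug (ZMod p) (pw κ M) ^ (3 * k) = ⊥ := by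
    refine aug_pow_eq_bot hc hdat' hd' ht' _ ?_
    have e : (p - 1) * (3 * N * d + p ^ c * (3 * N * t)) =
        3 * ((p - 1) * N * (d + p ^ c * t)) := by ring
    rw [e, hk]
    omega
  obtain ⟨J, hJ, hfin⟩ := exists_iso (K := ZMod p) hM' hbot
  refine ⟨ZMod p, inferInstance, J, hJ, ?_⟩
  rw [hfin]
  -- the parameter
  set lam : ℝ := 2 / 3 / ((p : ℝ) - 1) with hlam
  have hp1 : (1 : ℝ) ≤ (p : ℝ) - 1 := by linarith
  have hlamp : lam * ((p : ℝ) - 1) = 2 / 3 := by
    rw [hlam]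
    field_simp
  have hlam0 : 0 < lam := by positivity
  have hlam1 : lam ≤ 2 / 3 := by nlinarith
  set x : ℝ := Real.exp (-lam) with hx
  have hx0 : 0 < x := Real.exp_pos _
  have hx1 : x ≤ 1 := Real.exp_le_one_iff.2 (by linarith)
  obtain ⟨LL, hL0, hL1, -, -, hLL⟩ := hdat'
  obtain ⟨hle, hcomm, hpow⟩ := hLL 0 (by omega)
  rw [hL0, zero_add, hL1] at hle hcomm hpow
  have h1 := codim_bound (K := ZMod p) hp hM' hle hcomm hpow hd' hx0 hx1 k
  have h2 : ∑ b ∈ Finset.range p, x ^ b ≤ p * Real.exp (-(5 / 18)) := by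
    have := Elb.mgf p hp.two_le lam hlamp
    rw [Finset.sum_range]
    refine le_trans (le_of_eq ?_) this
    refine Finset.sum_congr rfl fun j _ => ?_
    rw [hx, ← Real.exp_nat_mul]
    congr 1
    ring
  have hs0 : 0 ≤ ∑ b ∈ Finset.range p, x ^ b := Finset.sum_nonneg fun _ _ => by positivity
  have hcardQ : (Fintype.card (κ → P) : ℝ) =
      Nat.card ((κ → P) ⧸ pw κ M) * (Nat.card (pw κ Z) * (p : ℝ) ^ (3 * N * d)) := by
    have e1 : Nat.card (κ → P) = Nat.card ((κ → P) ⧸ pw κ M) * Nat.card (pw κ M) :=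
      Subgroup.card_eq_card_quotient_mul_card_subgroup _
    rw [← Nat.card_eq_fintype_card, e1, hd']
    push_cast
    ring
  -- the power of x
  have hxk : Real.exp (-(2 / 3 * N * (d + (p : ℝ) ^ c * t)) - 2 / 3) ≤ x ^ k := by
    rw [hx, ← Real.exp_nat_mul]
    apply Real.exp_le_exp.2
    have e2 : (k : ℝ) = ((p : ℝ) - 1) * N * (d + (p : ℝ) ^ c * t) + 1 := by
      rw [hk]
      push_cast [Nat.cast_sub hp.one_le]
      ring
    rw [e2]
    have e3 : (((p : ℝ) - 1) * N * (d + (p : ℝ) ^ c * t) + 1) * -lam =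
        -(lam * ((p : ℝ) - 1)) * N * (d + (p : ℝ) ^ c * t) - lam := by ring
    rw [e3, hlamp]
    linarith
  have hxk0 : 0 < x ^ k := by positivity
  set F : ℝ := (finrank (ZMod p) (MonoidAlgebra (ZMod p) (κ → P) ⧸ JJ (ZMod p) (pw κ M) k) : ℝ)
    with hF
  have hF0 : 0 ≤ F := Nat.cast_nonneg _
  have h3 : F * Real.exp (-(2 / 3 * N * (d + (p : ℝ) ^ c * t)) - 2 / 3) ≤
      Real.exp (-(5 / 18)) ^ (3 * N * d) * Fintype.card (κ → P) := by
    calc F * Real.exp (-(2 / 3 * N * (d + (p : ℝ) ^ c * t)) - 2 / 3) ≤ F * x ^ k :=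
          mul_le_mul_of_nonneg_left hxk hF0
      _ ≤ _ := h1
      _ ≤ Nat.card ((κ → P) ⧸ pw κ M) * (Nat.card (pw κ Z) *
          (p * Real.exp (-(5 / 18))) ^ (3 * N * d)) := by
          refine mul_le_mul_of_nonneg_left ?_ (Nat.cast_nonneg _)
          refine mul_le_mul_of_nonneg_left ?_ (Nat.cast_nonneg _)
          exact pow_le_pow_left₀ hs0 h2 _
      _ = _ := by rw [hcardQ, mul_pow]; ring
  have h4 : Real.exp (-(5 / 18)) ^ (3 * N * d) =
      Real.exp (-(2 / 3 * N * (d + (p : ℝ) ^ c * t)) - 2 / 3) *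
      Real.exp (-(N * d : ℝ) / 6 + 2 / 3 * N * (p : ℝ) ^ c * t + 2 / 3) := by
    rw [← Real.exp_nat_mul, ← Real.exp_add]
    congr 1
    push_cast
    ring
  have h5 : F ≤ Real.exp (-(N * d : ℝ) / 6 + 2 / 3 * N * (p : ℝ) ^ c * t + 2 / 3) *
      Fintype.card (κ → P) := by
    have hpos := Real.exp_pos (-(2 / 3 * (N : ℝ) * (d + (p : ℝ) ^ c * t)) - 2 / 3)
    rw [h4] at h3
    refine le_of_mul_le_mul_right ?_ hpos
    calc _ ≤ _ := h3
      _ = _ := by ring
  refine h5.trans ?_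
  refine mul_le_mul_of_nonneg_right ?_ (Nat.cast_nonneg _)
  rw [← Real.exp_nat_mul]
  apply Real.exp_le_exp.2
  push_cast
  have hN' : (1 : ℝ) ≤ N := by exact_mod_cast hN
  nlinarith

end G2

end Pool.Agent.Run7.h151.GB
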