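import Mathlib
import Pool.Agent.Run7.h151.GB.Good

/-!
# Subgroups of bounded exponent and derived length (helper151)
-/

namespace Pool.Agent.Run7.h151.GB

open Pool.Agent.N580 (CC DC Dat large)
open Pool.Agent.N726.BG (STPP Good Iso pow_bound blo piv elem_bound elem_subgroup classes_bound)

section chain

variable {P : Type} [Group P]

theorem dc_derived (p e : ℕ) (hexp : ∀ x : P, x ^ p ^ e = 1) (r : ℕ) :
    DC p (⊤ : Subgroup P) (derivedSeries P r) (r * e) := by
  induction r with
  | zero =>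
    rw [derivedSeries_zero, Nat.zero_mul]
    exact DC.refl _ _ inferInstance
  | succ r ih =>
    rw [Nat.succ_mul]
    refine ih.append ?_
    refine DC.of_pow p e _ _ (derivedSeries_normal P r) (derivedSeries_normal P (r + 1)) ?_ ?_ ?_
    · exact derivedSeries_antitone P (Nat.le_succ r)
    · rw [derivedSeries_succ]
    · intro x _
      rw [hexp]
      exact one_mem _

end chain

/-- the bound from the data -/
theorem dat_bound {G P : Type} [Group G] [Fintype G] [Group P] [Fintype P] (φ : P →* G)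
    (hφ : Function.Injective φ) {p : ℕ} [Fact p.Prime] {M Z : Subgroup P} {c : ℕ} (hc : 1 ≤ c)
    (hdat : Dat p M Z c) {d t : ℕ} (hd : Nat.card M = p ^ d * Nat.card Z)
    (ht : Nat.card Z = p ^ t) {I : Type} [Fintype I] {A B C : I → Finset G} (h : STPP A B C) :
    ∑ i, (((A i).card * (B i).card * (C i).card : ℕ) : ℝ) ^ ((2 : ℝ) / 3) ≤
      Real.exp (-(d : ℝ) / 18 + 2 / 9 * (p : ℝ) ^ c * t + 2 / 9) * Fintype.card G :=
  pow_bound (blo piv) G P φ hφ _ (Real.exp_pos _)
    (fun N hN => good_of_dat hc hdat hd ht N hN) I A B C h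

/-- the trivial bound -/
theorem triv_bound {G : Type} [Group G] [Fintype G] {I : Type} [Fintype I] {A B C : I → Finset G}
    (h : STPP A B C) :
    ∑ i, (((A i).card * (B i).card * (C i).card : ℕ) : ℝ) ^ ((2 : ℝ) / 3) ≤ Fintype.card G := by
  have : Fact (Nat.Prime 2) := ⟨Nat.prime_two⟩
  have h1 := elem_bound (p := 2) (κ := Fin 0) (G := G) 1 (fun x y _ => by
    apply Multiplicative.toAdd.injective
    funext i
    exact i.elim0) h
  simpa using h1

/-- the exponent -/
noncomputable def QQ (p m : ℕ) : ℕ := 2 ^ m * (8 * p ^ 2 ^ m + 1) ^ 2 ^ m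

/-- the main bound for a `p`-subgroup with a chain with elementary abelian factors -/
theorem chain_bound {G P : Type} [Group G] [Fintype G] [Group P] [Fintype P] (φ : P →* G)
    (hφ : Function.Injective φ) {p : ℕ} [Fact p.Prime] {m s : ℕ} (hm : DC p (⊤ : Subgroup P) ⊥ m)
    (hs : Nat.card P = p ^ s) {I : Type} [Fintype I] {A B C : I → Finset G} (h : STPP A B C) :
    ∑ i, (((A i).card * (B i).card * (C i).card : ℕ) : ℝ) ^ ((2 : ℝ) / 3) ≤
      Real.exp (-(s : ℝ) / (324 * QQ p m)) * Fintype.card G := by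
  classical
  have hp : p.Prime := Fact.out
  rcases Nat.eq_zero_or_pos s with hs0 | hs0
  · subst hs0
    simpa using triv_bound h
  have hPg : IsPGroup p P := IsPGroup.of_card hs
  have hnil : Group.IsNilpotent P := hPg.isNilpotent
  obtain ⟨N, hN, -, hcard, hCC⟩ := large hnil p m ⊤ hm
  have hn : 1 ≤ 2 ^ m := Nat.one_le_two_pow
  obtain ⟨M, Z, c, hc, hcn, hM, hMN, hZM, hNM, hZMq, hdat⟩ :=
    hCC.exists_dat hn (8 * p ^ 2 ^ m + 1) (by omega)
  obtain ⟨a, ha⟩ := (hPg.to_subgroup M).exists_card_eq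
  obtain ⟨t, ht⟩ := (hPg.to_subgroup Z).exists_card_eq
  rw [Subgroup.card_top] at hcard
  have hqt : (8 * p ^ 2 ^ m + 1) * t ≤ a := by
    rw [ha, ht, ← pow_mul] at hZMq
    have := (Nat.pow_le_pow_iff_right hp.one_lt).1 hZMq
    rwa [mul_comm] at this
  have hsa : s ≤ a * QQ p m := by
    have h1 : Nat.card P ≤ Nat.card M ^ QQ p m := by
      calc Nat.card P ≤ Nat.card N ^ 2 ^ m := hcard
        _ ≤ (Nat.card M ^ (8 * p ^ 2 ^ m + 1) ^ 2 ^ m) ^ 2 ^ m := Nat.pow_le_pow_left hNM _
        _ = _ := by rw [← pow_mul, QQ, mul_comm]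
    rw [hs, ha, ← pow_mul] at h1
    exact (Nat.pow_le_pow_iff_right hp.one_lt).1 h1
  have hta : t ≤ a := le_trans (Nat.le_mul_of_pos_left t (by omega)) hqt
  have hd : Nat.card M = p ^ (a - t) * Nat.card Z := by
    rw [ha, ht, ← pow_add]
    congr 1
    omega
  set d := a - t with hdd
  have had : a = d + t := by omega
  have hQ0 : 0 < QQ p m := by
    unfold QQ
    positivity
  have hQ0' : (0 : ℝ) < QQ p m := by exact_mod_cast hQ0
  have hG0 : (0 : ℝ) ≤ Fintype.card G := Nat.cast_nonneg _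
  -- bound on `t`
  have htd : 8 * (p : ℝ) ^ c * t ≤ d := by
    have h1 : 8 * p ^ c * t ≤ d := by
      have h2 : p ^ c ≤ p ^ 2 ^ m := Nat.pow_le_pow_right hp.pos hcn
      have h3 : 8 * p ^ c * t ≤ 8 * p ^ 2 ^ m * t := by gcongr
      have h4 : 8 * p ^ 2 ^ m * t + t ≤ d + t := by
        calc 8 * p ^ 2 ^ m * t + t = (8 * p ^ 2 ^ m + 1) * t := by ring
          _ ≤ a := hqt
          _ = d + t := had
      omega
    exact_mod_cast h1
  have htd' : 8 * (t : ℝ) ≤ d := by
    refine le_trans ?_ htd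
    have h2 : (1 : ℝ) ≤ (p : ℝ) ^ c := one_le_pow₀ (by exact_mod_cast hp.one_le)
    have h3 : (0 : ℝ) ≤ t := Nat.cast_nonneg _
    nlinarith
  have hsd : (s : ℝ) ≤ 9 / 8 * d * QQ p m := by
    have h1 : (s : ℝ) ≤ (d + t) * QQ p m := by
      have : (s : ℝ) ≤ a * QQ p m := by exact_mod_cast hsa
      rw [had] at this
      push_cast at this
      exact this
    refine h1.trans ?_
    refine mul_le_mul_of_nonneg_right ?_ hQ0'.le
    linarith
  rcases le_or_gt 16 d with h16 | h16
  · refine (dat_bound φ hφ hc hdat hd ht h).trans ?_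
    refine mul_le_mul_of_nonneg_right ?_ hG0
    apply Real.exp_le_exp.2
    have h16' : (16 : ℝ) ≤ d := by exact_mod_cast h16
    have h5 : (s : ℝ) / (324 * QQ p m) ≤ d / 288 := by
      rw [div_le_div_iff₀ (by positivity) (by norm_num)]
      nlinarith
    have h6 : -(s : ℝ) / (324 * QQ p m) = -((s : ℝ) / (324 * QQ p m)) := by ring
    rw [h6]
    have h7 : 2 / 9 * (p : ℝ) ^ c * t ≤ d / 36 := by linarith
    linarith
  · -- a subgroup of order `p`
    have h16' : (d : ℝ) ≤ 16 := by exact_mod_cast h16.le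
    have hcard1 : p ∣ Nat.card P := by
      rw [hs]
      exact dvd_pow_self p (by omega)
    obtain ⟨x, hx⟩ := exists_prime_orderOf_dvd_card' p hcard1
    have hφx : orderOf (φ x) = p := by rw [orderOf_injective φ hφ, hx]
    have h1 := elem_subgroup (G := G) (r := 1) hp (Subgroup.zpowers (φ x)) (by
        intro y hy z hz
        obtain ⟨i, rfl⟩ := Subgroup.mem_zpowers_iff.1 hy
        obtain ⟨j, rfl⟩ := Subgroup.mem_zpowers_iff.1 hz
        rw [← zpow_add, ← zpow_add, add_comm]) (by
        intro y hy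
        obtain ⟨i, rfl⟩ := Subgroup.mem_zpowers_iff.1 hy
        rw [← zpow_natCast, ← zpow_mul, mul_comm, zpow_mul, zpow_natCast, ← hφx, pow_orderOf_eq_one,
          one_zpow]) (by
        rw [Nat.card_zpowers, hφx, pow_one]) h
    rw [Nat.card_eq_fintype_card] at h1
    have h2 : ∑ i, (((A i).card * (B i).card * (C i).card : ℕ) : ℝ) ^ ((2 : ℝ) / 3) ≤
        Real.exp (-(1 / 18)) * Fintype.card G := by
      have h3 : Real.exp (-(1 / 18)) * Real.exp (((1 : ℕ) : ℝ) / 18) = 1 := by
        rw [← Real.exp_add]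
        norm_num
      have h4 := mul_le_mul_of_nonneg_left h1 (Real.exp_pos (-(1 / 18 : ℝ))).le
      calc _ = (Real.exp (-(1 / 18)) * Real.exp (((1 : ℕ) : ℝ) / 18)) *
          ∑ i, (((A i).card * (B i).card * (C i).card : ℕ) : ℝ) ^ ((2 : ℝ) / 3) := by
            rw [h3, one_mul]
        _ = Real.exp (-(1 / 18)) *
          ((∑ i, (((A i).card * (B i).card * (C i).card : ℕ) : ℝ) ^ ((2 : ℝ) / 3)) *
            Real.exp (((1 : ℕ) : ℝ) / 18)) := by ring
        _ ≤ _ := h4
    refine h2.trans ?_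
    refine mul_le_mul_of_nonneg_right ?_ hG0
    apply Real.exp_le_exp.2
    have h5 : (s : ℝ) / (324 * QQ p m) ≤ 1 / 18 := by
      rw [div_le_div_iff₀ (by positivity) (by norm_num)]
      nlinarith
    have h6 : -(s : ℝ) / (324 * QQ p m) = -((s : ℝ) / (324 * QQ p m)) := by ring
    rw [h6]
    linarith

/-- the saving for a prime `p`, exponent `p ^ e`, derived length `r` -/
noncomputable def eps (p e r : ℕ) : ℝ := 1 / (324 * QQ p (r * e) * Real.log p)

theorem eps_pos {p : ℕ} (hp : p.Prime) (e r : ℕ) : 0 < eps p e r := by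
  unfold eps QQ
  have : 0 < Real.log p := Real.log_pos (by exact_mod_cast hp.one_lt)
  positivity

/-- **the saving** -/
theorem hom_bound {G P : Type} [Group G] [Finite G] [Group P] [Finite P] (φ : P →* G)
    (hφ : Function.Injective φ) {p : ℕ} (hp : p.Prime) (e r : ℕ)
    (hexp : ∀ x : P, x ^ p ^ e = 1) (hder : derivedSeries P r = ⊥)
    {I : Type} [Fintype I] {A B C : I → Finset G} (h : STPP A B C) :
    (∑ i, (((A i).card * (B i).card * (C i).card : ℕ) : ℝ) ^ ((2 : ℝ) / 3)) *
      (Nat.card P : ℝ) ^ eps p e r ≤ Nat.card G := by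
  classical
  have : Fact p.Prime := ⟨hp⟩
  have hfin : Fintype G := Fintype.ofFinite G
  have hfinP : Fintype P := Fintype.ofFinite P
  have hPg : IsPGroup p P := fun x => ⟨e, hexp x⟩
  obtain ⟨s, hs⟩ := hPg.exists_card_eq
  have hdc := dc_derived p e hexp r
  rw [hder] at hdc
  have h1 := chain_bound φ hφ hdc hs h
  have hlog : 0 < Real.log p := Real.log_pos (by exact_mod_cast hp.one_lt)
  have hQ : (0 : ℝ) < QQ p (r * e) := by
    unfold QQ
    positivity
  have h2 : (Nat.card P : ℝ) ^ eps p e r = Real.exp ((s : ℝ) / (324 * QQ p (r * e))) := by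
    rw [hs, Nat.cast_pow, Real.rpow_def_of_pos (by have := hp.pos; positivity), Real.log_pow, eps]
    congr 1
    field_simp
  rw [h2, Nat.card_eq_fintype_card]
  calc _ ≤ (Real.exp (-(s : ℝ) / (324 * QQ p (r * e))) * Fintype.card G) *
        Real.exp ((s : ℝ) / (324 * QQ p (r * e))) :=
        mul_le_mul_of_nonneg_right h1 (Real.exp_pos _).le
    _ = (Real.exp (-(s : ℝ) / (324 * QQ p (r * e))) * Real.exp ((s : ℝ) / (324 * QQ p (r * e)))) *
        Fintype.card G := by ring
    _ = Fintype.card G := by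
        rw [← Real.exp_add]
        have : -(s : ℝ) / (324 * QQ p (r * e)) + (s : ℝ) / (324 * QQ p (r * e)) = 0 := by ring
        rw [this, Real.exp_zero, one_mul]

end Pool.Agent.Run7.h151.GB
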