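import Mathlib
import Pool.Agent.Run7.h151.GB.Main

/-!
# Groups of bounded exponent (helper151)
-/

namespace Pool.Agent.Run7.h151.GB

open Pool.Agent.N726.BG (STPP classes_bound)

/-- the conclusion for the exponents -/
theorem classes_of_saving {G : Type} [Group G] [Finite G] {X ε K ω : ℝ} (hX : 1 ≤ X)
    {I : Type} [Fintype I] {A B C : I → Finset G}
    (hS : (∑ i, (((A i).card * (B i).card * (C i).card : ℕ) : ℝ) ^ ((2 : ℝ) / 3)) * X ^ ε ≤
      Nat.card G) {n : ℕ} {d : Fin n → ℕ}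
    (hd : Nonempty (MonoidAlgebra ℂ G ≃ₐ[ℂ] ∀ j, Matrix (Fin (d j)) (Fin (d j)) ℂ))
    (hω : 2 ≤ ω) (hk : (Nat.card (ConjClasses G) : ℝ) ≤ X ^ K) (hK : K * (ω - 2) ≤ ε * ω) :
    ∑ i, (((A i).card * (B i).card * (C i).card : ℕ) : ℝ) ^ (ω / 3) ≤ ∑ j, (d j : ℝ) ^ ω := by
  have hX0 : 0 < X := by linarith
  have hω0 : 0 < ω := by linarith
  refine classes_bound (Real.rpow_pos_of_pos hX0 ε) hS hd hω ?_
  calc (Nat.card (ConjClasses G) : ℝ) ^ ((ω - 2) / ω) ≤ (X ^ K) ^ ((ω - 2) / ω) :=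
        Real.rpow_le_rpow (Nat.cast_nonneg _) hk (div_nonneg (by linarith) hω0.le)
    _ = X ^ (K * ((ω - 2) / ω)) := by rw [← Real.rpow_mul hX0.le]
    _ ≤ X ^ ε := by
        apply Real.rpow_le_rpow_of_exponent_le hX
        rw [mul_div_assoc', div_le_iff₀ hω0]
        exact hK

theorem card_classes_le (G : Type) [Group G] [Finite G] :
    Nat.card (ConjClasses G) ≤ Nat.card G :=
  Nat.card_le_card_of_surjective _ ConjClasses.mk_surjective

/-- There is a large Sylow subgroup. -/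
theorem exists_large_sylow {G : Type} [Group G] [Finite G] {m : ℕ} (hm : 0 < m)
    (hexp : ∀ x : G, x ^ m = 1) (hG : 1 < Nat.card G) :
    ∃ p, p.Prime ∧ p ∈ m.primeFactors ∧ ∀ P : Sylow p G,
      Nat.card G ≤ Nat.card P ^ m.primeFactors.card := by
  classical
  set S := m.primeFactors with hS
  have hsub : (Nat.card G).primeFactors ⊆ S := by
    intro p hp
    have hpp := Nat.prime_of_mem_primeFactors hp
    have : Fact p.Prime := ⟨hpp⟩
    obtain ⟨x, hx⟩ := exists_prime_orderOf_dvd_card' p (Nat.dvd_of_mem_primeFactors hp)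
    have h1 : p ∣ m := by
      rw [← hx]
      exact orderOf_dvd_of_pow_eq_one (hexp x)
    exact Nat.mem_primeFactors.2 ⟨hpp, h1, hm.ne'⟩
  have hprod : ∏ p ∈ S, p ^ (Nat.card G).factorization p = Nat.card G := by
    conv_rhs => rw [← Nat.prod_factorization_pow_eq_self (n := Nat.card G) (by omega)]
    rw [Finsupp.prod, Nat.support_factorization]
    symm
    refine Finset.prod_subset hsub fun p _ hp => ?_
    have : (Nat.card G).factorization p = 0 := by
      rwa [← Finsupp.notMem_support_iff, Nat.support_factorization]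
    rw [this, pow_zero]
  have hSne : S.Nonempty := by
    by_contra hc
    rw [Finset.not_nonempty_iff_eq_empty] at hc
    rw [hc, Finset.prod_empty] at hprod
    omega
  obtain ⟨p, hpS, hp⟩ : ∃ p ∈ S, Nat.card G ≤ (p ^ (Nat.card G).factorization p) ^ S.card := by
    by_contra hcon
    push Not at hcon
    have h1 : ∏ p ∈ S, (p ^ (Nat.card G).factorization p) ^ S.card < ∏ _p ∈ S, Nat.card G := by
      refine Finset.prod_lt_prod_of_nonempty (fun p hp => ?_) hcon hSne
      have := (Nat.prime_of_mem_primeFactors hp).pos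
      positivity
    rw [Finset.prod_pow, hprod, Finset.prod_const] at h1
    exact lt_irrefl _ h1
  have hpp := Nat.prime_of_mem_primeFactors hpS
  refine ⟨p, hpp, hpS, fun P => ?_⟩
  have : Fact p.Prime := ⟨hpp⟩
  rw [P.card_eq_multiplicity]
  exact hp

theorem exists_min_pos (S : Finset ℕ) (f : ℕ → ℝ) (hpos : ∀ p ∈ S, 0 < f p) :
    ∃ ε : ℝ, 0 < ε ∧ ∀ p ∈ S, ε ≤ f p := by
  classical
  induction S using Finset.induction_on with
  | empty => exact ⟨1, one_pos, fun p hp => absurd hp (Finset.notMem_empty p)⟩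
  | insert a S ha ih =>
    obtain ⟨ε, hε, h⟩ := ih fun p hp => hpos p (Finset.mem_insert_of_mem hp)
    refine ⟨min ε (f a), lt_min hε (hpos a (Finset.mem_insert_self a S)), fun p hp => ?_⟩
    rcases Finset.mem_insert.1 hp with rfl | hp
    · exact min_le_right _ _
    · exact (min_le_left _ _).trans (h p hp)

/-- the saving for the exponent `m` and derived length `r` -/
theorem exists_min (m r : ℕ) : ∃ ε : ℝ, 0 < ε ∧ ∀ p ∈ m.primeFactors, ε ≤ eps p m r :=
  exists_min_pos _ (fun p => eps p m r) fun _ hp => eps_pos (Nat.prime_of_mem_primeFactors hp) m r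

/-- the saving for a subgroup of bounded exponent with Sylow subgroups of bounded derived
length -/
theorem sylow_saving (m : ℕ) (hm : 0 < m) (r : ℕ) : ∃ ε : ℝ, 0 < ε ∧
    ∀ (G : Type) [Group G] [Finite G] (H : Subgroup G), (∀ x ∈ H, x ^ m = 1) →
    (∀ p : ℕ, p.Prime → ∀ P : Sylow p H, derivedSeries P r = ⊥) →
    ∀ (I : Type) [Fintype I] (A B C : I → Finset G), STPP A B C →
    (∑ i, (((A i).card * (B i).card * (C i).card : ℕ) : ℝ) ^ ((2 : ℝ) / 3)) *
      (Nat.card H : ℝ) ^ ε ≤ Nat.card G := by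
  obtain ⟨ε, hε, hmin⟩ := exists_min m r
  set w := m.primeFactors.card with hw
  refine ⟨ε / (w + 1), by positivity, fun G _ _ H hexp hsyl I _ A B C h => ?_⟩
  have hG1 : 1 ≤ Nat.card H := Nat.card_pos
  rcases hG1.eq_or_lt with hG | hG
  · have hfin : Fintype G := Fintype.ofFinite G
    rw [← hG, Nat.cast_one, Real.one_rpow, mul_one]
    refine (triv_bound h).trans ?_
    rw [← Nat.card_eq_fintype_card]
  have hexp' : ∀ x : H, x ^ m = 1 := fun x => Subtype.ext (hexp x x.2)
  obtain ⟨p, hp, hpS, hlarge⟩ := exists_large_sylow hm hexp' hG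
  have : Fact p.Prime := ⟨hp⟩
  obtain ⟨P⟩ : Nonempty (Sylow p H) := inferInstance
  have hPexp : ∀ x : P, x ^ p ^ m = 1 := by
    intro x
    obtain ⟨k, hk⟩ := P.isPGroup' x
    have h1 : orderOf x ∣ p ^ k := orderOf_dvd_of_pow_eq_one hk
    obtain ⟨j, -, hj⟩ := (Nat.dvd_prime_pow hp).1 h1
    have h2 : orderOf x ∣ m := orderOf_dvd_of_pow_eq_one (Subtype.ext (hexp' x))
    rw [hj] at h2
    have h3 : j ≤ m := (Nat.lt_pow_self hp.one_lt).le.trans (Nat.le_of_dvd hm h2)
    rw [← orderOf_dvd_iff_pow_eq_one, hj]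
    exact pow_dvd_pow p h3
  have h1 := hom_bound (H.subtype.comp (P : Subgroup H).subtype)
    (H.subtype_injective.comp (P : Subgroup H).subtype_injective) hp m r hPexp (hsyl p hp P) h
  refine le_trans ?_ h1
  refine mul_le_mul_of_nonneg_left ?_ (Finset.sum_nonneg fun i _ =>
    Real.rpow_nonneg (Nat.cast_nonneg _) _)
  have hP1 : (1 : ℝ) ≤ (Nat.card P : ℝ) := by exact_mod_cast Nat.card_pos
  have h2 : (Nat.card H : ℝ) ≤ (Nat.card P : ℝ) ^ w := by exact_mod_cast hlarge P
  have hw0 : (0 : ℝ) < (w : ℝ) + 1 := by positivity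
  calc (Nat.card H : ℝ) ^ (ε / (w + 1))
      ≤ ((Nat.card P : ℝ) ^ w) ^ (ε / (w + 1)) :=
        Real.rpow_le_rpow (Nat.cast_nonneg _) h2 (by positivity)
    _ = (Nat.card P : ℝ) ^ ((w : ℝ) * (ε / (w + 1))) := by
        rw [← Real.rpow_natCast, ← Real.rpow_mul (by linarith)]
    _ ≤ _ := by
        apply Real.rpow_le_rpow_of_exponent_le hP1
        refine le_trans ?_ (hmin p hpS)
        rw [mul_div_assoc', div_le_iff₀ hw0]
        nlinarith

end Pool.Agent.Run7.h151.GB
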